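import Pool.Agent.helper27.TD.Spec2

/-!
# Row td:CC2 (count in a cell)
-/

set_option autoImplicit false

namespace Pool.Agent.helper27.TD

open Finset Polynomial Pool.Agent.helper47.RA

/-- `u / v` determines `D`. -/
theorem CC2_inj (h4 : FSQ_stmt) {L : ℤ} {D₁ D₂ k u₁ v₁ u₂ v₂ : ℤ} (hf₁ : IsFund D₁)
    (hf₂ : IsFund D₂) (hk : k ≠ 0) (hv₁ : v₁ ≠ 0) (hv₂ : v₂ ≠ 0)
    (h₁ : u₁ ^ 2 - L * v₁ ^ 2 = D₁ * k ^ 2) (h₂ : u₂ ^ 2 - L * v₂ ^ 2 = D₂ * k ^ 2)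
    (hτ : (u₁ : ℚ) / v₁ = (u₂ : ℚ) / v₂) : D₁ = D₂ := by
  have hv₁' : (v₁ : ℚ) ≠ 0 := by exact_mod_cast hv₁
  have hv₂' : (v₂ : ℚ) ≠ 0 := by exact_mod_cast hv₂
  rw [div_eq_div_iff hv₁' hv₂'] at hτ
  have hz : u₁ * v₂ = u₂ * v₁ := by exact_mod_cast hτ
  have hk2 : k ^ 2 ≠ 0 := pow_ne_zero 2 hk
  have h5 : k ^ 2 * (D₁ * v₂ ^ 2) = k ^ 2 * (D₂ * v₁ ^ 2) := by
    have e1 : k ^ 2 * (D₁ * v₂ ^ 2) = (u₁ ^ 2 - L * v₁ ^ 2) * v₂ ^ 2 := by rw [h₁]; ring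
    have e2 : k ^ 2 * (D₂ * v₁ ^ 2) = (u₂ ^ 2 - L * v₂ ^ 2) * v₁ ^ 2 := by rw [h₂]; ring
    rw [e1, e2]
    have e3 : (u₁ * v₂) ^ 2 = (u₂ * v₁) ^ 2 := by rw [hz]
    linear_combination e3
  exact h4 D₁ D₂ hf₁ hf₂ v₂ v₁ hv₂ hv₁ (mul_left_cancel₀ hk2 h5)

theorem CC2 (h1 : CRV_stmt) (h2 : GN2_stmt) (h3 : MC2_stmt) (h4 : FSQ_stmt) : CC2_stmt := by
  intro b p l₁ l₂ j₁ j₂ hp hbp ε hε
  obtain ⟨C0, hC0, hcrv⟩ := h1 b
  obtain ⟨CG, hCG, hgn⟩ := h2 ε hε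
  have hC0r : (1 : ℝ) ≤ (C0 : ℝ) := by exact_mod_cast hC0
  have hC0p : (0 : ℝ) < (C0 : ℝ) := by linarith
  set e : ℝ := ε / (C0 : ℝ) with he
  have hepos : 0 < e := div_pos hε hC0p
  have hM : ∀ b' : ℕ, ∃ C : ℝ, 1 ≤ C ∧ (1 ≤ b' → b' ≤ b → ∀ H q₁ q₂ : ℕ, 1 ≤ H →
      Par p q₁ q₂ l₁ l₂ j₁ j₂ →
      q₁ ^ l₁ * q₂ ^ l₂ ≤ H → q₁ ^ j₁ * q₂ ^ j₂ ≤ H → ∀ k : ℤ, ¬ (q₁ : ℤ) ∣ k → ¬ (q₂ : ℤ) ∣ k →
      ∀ A B : ℤ[X], Curve b' A B → (∀ i, |A.coeff i| ≤ H ∧ |B.coeff i| ≤ H) → ∀ T : Finset ℤ,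
      (∀ D ∈ T, ∃ (w x : ℤ) (P : Pt),
        Tw p q₁ q₂ (q₁ ^ l₁ * q₂ ^ l₂) (q₁ ^ j₁ * q₂ ^ j₂) D k w x P ∧ (∀ i, |P i| ≤ H) ∧
        OnCurve A B P) →
      (T.card : ℝ) ≤ C * (H : ℝ) ^ e) := by
    intro b'
    by_cases hb' : 1 ≤ b' ∧ b' ≤ b
    · obtain ⟨C, hC, hh⟩ := h3 b' p l₁ l₂ j₁ j₂ hb'.1 hp (by omega) e hepos
      exact ⟨C, hC, fun _ _ => hh⟩
    · exact ⟨1, le_refl _, fun ha hb => absurd ⟨ha, hb⟩ hb'⟩
  choose CM hCM hmc using hM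
  set S : ℝ := ∑ b' ∈ range (b + 1), CM b' * (C0 : ℝ) ^ e with hS
  have hterm : ∀ b', 0 ≤ CM b' * (C0 : ℝ) ^ e := by
    intro b'
    have := hCM b'
    positivity
  have hS0 : 0 ≤ S := Finset.sum_nonneg (fun b' _ => hterm b')
  refine ⟨b + CG + S, ?_, ?_⟩
  · have : (0 : ℝ) ≤ (b : ℝ) := by positivity
    linarith
  intro H X q₁ q₂ hH hX hPar hXA hLH hJH k hk₁ hk₂ T w x P hT hdet
  have hHr : (1 : ℝ) ≤ (H : ℝ) := by exact_mod_cast hH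
  have hH0 : (0 : ℝ) < (H : ℝ) := by linarith
  have hHe : (1 : ℝ) ≤ (H : ℝ) ^ ε := Real.one_le_rpow hHr hε.le
  obtain ⟨R, b', A, B, hRb, hb'b, hCur, hcoef, hcov⟩ := hcrv H hH ((fun D => P D) '' (T : Set ℤ))
    (by
      rintro _ ⟨D, hD, rfl⟩
      have hD' : D ∈ T := by simpa using hD
      obtain ⟨hTw, -, -, -, hP⟩ := hT D hD'
      exact ⟨hP, hTw.v0⟩)
    (by
      intro Q hQ
      have hQ' : ∀ i, ∃ D ∈ T, P D = Q i := by
        intro i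
        obtain ⟨D, hD, hDQ⟩ := hQ i
        exact ⟨D, by simpa using hD, hDQ⟩
      choose q hqT hqQ using hQ'
      have h5 := hdet q hqT
      have h6 : (fun i => P (q i)) = Q := by
        funext i
        exact hqQ i
      rw [h6] at h5
      exact h5)
  classical
  set T1 : Finset ℤ := T.filter (fun D => ((P D 2 : ℤ) : ℚ) / ((P D 3 : ℤ) : ℚ) ∈ R) with hT1
  set T2 : Finset ℤ := T.filter (fun D => ¬ (((P D 2 : ℤ) : ℚ) / ((P D 3 : ℤ) : ℚ) ∈ R)) with hT2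
  have hsplit : T1.card + T2.card = T.card := by
    rw [hT1, hT2]
    exact Finset.card_filter_add_card_filter_not _
  have hT1c : T1.card ≤ b := by
    refine le_trans ?_ hRb
    refine Finset.card_le_card_of_injOn (fun D => ((P D 2 : ℤ) : ℚ) / ((P D 3 : ℤ) : ℚ)) ?_ ?_
    · intro D hD
      have := (Finset.mem_filter.mp (Finset.mem_coe.mp hD)).2
      exact Finset.mem_coe.mpr this
    · intro D₁ hD₁ D₂ hD₂ hτ
      have hd₁ := (Finset.mem_filter.mp (Finset.mem_coe.mp hD₁)).1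
      have hd₂ := (Finset.mem_filter.mp (Finset.mem_coe.mp hD₂)).1
      obtain ⟨hTw₁, -⟩ := hT D₁ hd₁
      obtain ⟨hTw₂, -⟩ := hT D₂ hd₂
      exact CC2_inj h4 hTw₁.fund hTw₂.fund hTw₁.k0 hTw₁.v0 hTw₂.v0 hTw₁.hN hTw₂.hN hτ
  have hT2on : ∀ D ∈ T2, D ∈ T ∧ OnCurve A B (P D) := by
    intro D hD
    obtain ⟨hDT, hDR⟩ := Finset.mem_filter.mp hD
    refine ⟨hDT, ?_⟩
    rcases hcov (P D) ⟨D, by simpa using hDT, rfl⟩ with h5 | h5
    · exact absurd h5 hDR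
    · exact h5
  have hT2c : (T2.card : ℝ) ≤ (CG + S) * (H : ℝ) ^ ε := by
    rcases Nat.eq_zero_or_pos b' with hb0 | hb0
    · -- constant curve
      subst hb0
      have hA : A = C (A.coeff 0) := Polynomial.eq_C_of_natDegree_le_zero hCur.dA
      have hB : B = C (B.coeff 0) := Polynomial.eq_C_of_natDegree_le_zero hCur.dB
      have hAB : A.coeff 0 ≠ 0 ∨ B.coeff 0 ≠ 0 := by
        by_contra hcon
        push Not at hcon
        have hA0 : A = 0 := by rw [hA, hcon.1, C_0]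
        have hB0 : B = 0 := by rw [hB, hcon.2, C_0]
        have hc := hCur.cop
        rw [hA0, hB0, Polynomial.map_zero, isCoprime_zero_left] at hc
        exact not_isUnit_zero hc
      have h5 := hgn H X p q₁ q₂ (q₁ ^ l₁ * q₂ ^ l₂) (q₁ ^ j₁ * q₂ ^ j₂) hH hX hPar.hq₁ hPar.hq₂
        hXA (Nat.mul_pos (pow_pos hPar.hq₁.pos _) (pow_pos hPar.hq₂.pos _)) hLH
        (Nat.mul_pos (pow_pos hPar.hq₁.pos _) (pow_pos hPar.hq₂.pos _)) hJH k (A.coeff 0)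
        (B.coeff 0) hAB T2 (by
          intro D hD
          obtain ⟨hDT, hon⟩ := hT2on D hD
          obtain ⟨hTw, hX1, hX2, hwH, -⟩ := hT D hDT
          refine ⟨w D, x D, P D, hTw, hX1, hX2, hwH, ?_⟩
          unfold OnCurve ev at hon
          rw [hA, hB] at hon
          rw [Polynomial.map_C, Polynomial.map_C, Polynomial.eval_C, Polynomial.eval_C] at hon
          simp only [eq_intCast] at hon
          exact_mod_cast hon)
      have h6 : CG * (H : ℝ) ^ ε ≤ (CG + S) * (H : ℝ) ^ ε :=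
        mul_le_mul_of_nonneg_right (by linarith) (by positivity)
      exact h5.trans h6
    · -- nonconstant curve
      have hHH' : H ≤ C0 * H ^ C0 := by
        calc H = H ^ 1 := (pow_one H).symm
          _ ≤ H ^ C0 := Nat.pow_le_pow_right hH hC0
          _ ≤ C0 * H ^ C0 := Nat.le_mul_of_pos_left _ hC0
      have h5 := hmc b' hb0 hb'b (C0 * H ^ C0) q₁ q₂ (le_trans hH hHH') hPar
        (hLH.trans hHH') (hJH.trans hHH') k hk₁ hk₂ A B hCur (by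
          intro i
          have := hcoef i
          push_cast
          exact this) T2 (by
          intro D hD
          obtain ⟨hDT, hon⟩ := hT2on D hD
          obtain ⟨hTw, -, -, -, hP⟩ := hT D hDT
          refine ⟨w D, x D, P D, hTw, ?_, hon⟩
          intro i
          exact (hP i).trans (by exact_mod_cast hHH'))
      have h6 : ((C0 * H ^ C0 : ℕ) : ℝ) ^ e = (C0 : ℝ) ^ e * (H : ℝ) ^ ε := by
        push_cast
        rw [Real.mul_rpow hC0p.le (by positivity)]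
        congr 1
        rw [← Real.rpow_natCast, ← Real.rpow_mul hH0.le]
        congr 1
        rw [he]
        field_simp
      rw [h6] at h5
      have h7 : CM b' * (C0 : ℝ) ^ e ≤ S := by
        rw [hS]
        exact Finset.single_le_sum (f := fun b' => CM b' * (C0 : ℝ) ^ e)
          (fun i _ => hterm i) (Finset.mem_range.mpr (by omega))
      calc (T2.card : ℝ) ≤ CM b' * ((C0 : ℝ) ^ e * (H : ℝ) ^ ε) := h5
        _ = (CM b' * (C0 : ℝ) ^ e) * (H : ℝ) ^ ε := by ring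
        _ ≤ (CG + S) * (H : ℝ) ^ ε :=
            mul_le_mul_of_nonneg_right (by linarith) (by positivity)
  have hT1r : (T1.card : ℝ) ≤ (b : ℝ) * (H : ℝ) ^ ε := by
    calc (T1.card : ℝ) ≤ (b : ℝ) := by exact_mod_cast hT1c
      _ = (b : ℝ) * 1 := (mul_one _).symm
      _ ≤ (b : ℝ) * (H : ℝ) ^ ε := mul_le_mul_of_nonneg_left hHe (by positivity)
  calc (T.card : ℝ) = (T1.card : ℝ) + (T2.card : ℝ) := by rw [← hsplit]; push_cast; ring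
    _ ≤ (b : ℝ) * (H : ℝ) ^ ε + (CG + S) * (H : ℝ) ^ ε := add_le_add hT1r hT2c
    _ = (b + CG + S) * (H : ℝ) ^ ε := by ring

end Pool.Agent.helper27.TD
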