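import Pool.Agent.helper27.TD.Spec

/-!
# Row td:GNF (the ratio (g : n) is fixed)
-/

namespace Pool.Agent.helper27.TD

open Finset Polynomial Pool.Agent.helper47.RA

/-- A pair proportional to `(A, B)` is an integer multiple of the primitive pair. -/
theorem GNF_prop {A B g n a0 b0 c : ℤ} (hc : c ≠ 0) (hA : A = c * a0) (hB : B = c * b0)
    (hco : IsCoprime a0 b0) (h : g * B = n * A) : ∃ r : ℤ, g = r * a0 ∧ n = r * b0 := by
  obtain ⟨u, v, huv⟩ := hco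
  have h1 : g * b0 = n * a0 := by
    have : c * (g * b0) = c * (n * a0) := by rw [hA, hB] at h; linear_combination h
    exact mul_left_cancel₀ hc this
  refine ⟨u * g + v * n, ?_, ?_⟩
  · linear_combination (-g) * huv + v * h1
  · linear_combination (-n) * huv - u * h1

theorem GNF (h : WFX_stmt) : GNF_stmt := by
  intro d ε hε
  obtain ⟨C0, hC0, hW⟩ := h
  have hd3 : (0 : ℝ) < (d : ℝ) + 3 := by positivity
  set e : ℝ := ε / ((d : ℝ) + 3) with he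
  have hepos : 0 < e := div_pos hε hd3
  obtain ⟨C1, hC1, hdiv⟩ := card_divisors_le e hepos
  have h50 : (1 : ℝ) ≤ (50 : ℝ) ^ e := Real.one_le_rpow (by norm_num) hepos.le
  refine ⟨C1 * (50 : ℝ) ^ e * (C0 * C1), ?_, ?_⟩
  · have h1 : (1 : ℝ) ≤ C1 * (50 : ℝ) ^ e := one_le_mul_of_one_le_of_one_le hC1 h50
    have h2 : (1 : ℝ) ≤ C0 * C1 := one_le_mul_of_one_le_of_one_le hC0 hC1
    exact one_le_mul_of_one_le_of_one_le h1 h2
  intro H X q₁ q₂ hH hX hq₁ hq₂ hXz hzH k A B hAB T hT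
  have hHr : (1 : ℝ) ≤ (H : ℝ) := by exact_mod_cast hH
  have hH0 : (0 : ℝ) < (H : ℝ) := by linarith
  -- the primitive pair
  have hg0 : (Int.gcd A B : ℤ) ≠ 0 := by
    intro h0
    have h1 : Int.gcd A B = 0 := by exact_mod_cast h0
    rw [Int.gcd_eq_zero_iff] at h1
    rcases hAB with h2 | h2
    · exact h2 h1.1
    · exact h2 h1.2
  obtain ⟨a0, hA⟩ : (Int.gcd A B : ℤ) ∣ A := Int.gcd_dvd_left ..
  obtain ⟨b0, hB⟩ : (Int.gcd A B : ℤ) ∣ B := Int.gcd_dvd_right ..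
  have hco : IsCoprime a0 b0 := by
    have hgb := Int.gcd_eq_gcd_ab A B
    refine ⟨Int.gcdA A B, Int.gcdB A B, ?_⟩
    have : (Int.gcd A B : ℤ) * (Int.gcdA A B * a0 + Int.gcdB A B * b0)
        = (Int.gcd A B : ℤ) * 1 := by
      calc (Int.gcd A B : ℤ) * (Int.gcdA A B * a0 + Int.gcdB A B * b0)
          = ((Int.gcd A B : ℤ) * a0) * Int.gcdA A B
            + ((Int.gcd A B : ℤ) * b0) * Int.gcdB A B := by ring
        _ = A * Int.gcdA A B + B * Int.gcdB A B := by rw [← hA, ← hB]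
        _ = (Int.gcd A B : ℤ) * 1 := by rw [← hgb]; ring
    exact mul_left_cancel₀ hg0 this
  set z : ℕ := q₁ * q₂ with hz
  have hz0 : 0 < z := Nat.mul_pos hq₁.pos hq₂.pos
  by_cases hTe : T = ∅
  · rw [hTe, Finset.card_empty]
    have : (0 : ℝ) ≤ C1 * (50 : ℝ) ^ e * (C0 * C1) := by positivity
    have h3 : (0 : ℝ) ≤ (H : ℝ) ^ ε := by positivity
    have h4 := mul_nonneg this h3
    simpa using h4
  obtain ⟨D0, hD0⟩ := Finset.nonempty_iff_ne_empty.mpr hTe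
  obtain ⟨w0, x0, P0, hTow0, -, -, -, -⟩ := hT D0 hD0
  have hk0 : k ≠ 0 := hTow0.k0
  have hbk : k ^ 2 ≤ 25 * ((q₁ : ℤ) * q₂) := hTow0.bk
  set M : ℕ := 2 * z ^ d * k.natAbs ^ 2 with hM
  have hM0 : 0 < M := by
    have : 0 < k.natAbs := Int.natAbs_pos.mpr hk0
    positivity
  have hMH : (M : ℝ) ≤ 50 * (H : ℝ) ^ (d + 1) := by
    have h1 : (k.natAbs : ℕ) ^ 2 ≤ 25 * z := by
      have : ((k.natAbs ^ 2 : ℕ) : ℤ) ≤ ((25 * z : ℕ) : ℤ) := by
        push_cast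
        rw [sq_abs, hz]
        push_cast
        exact hbk
      exact_mod_cast this
    have h2 : M ≤ 50 * H ^ (d + 1) := by
      calc M = 2 * z ^ d * k.natAbs ^ 2 := hM
        _ ≤ 2 * H ^ d * (25 * H) := by
            refine Nat.mul_le_mul (Nat.mul_le_mul_left 2 (Nat.pow_le_pow_left hzH d)) ?_
            exact h1.trans (Nat.mul_le_mul_left 25 hzH)
        _ = 50 * H ^ (d + 1) := by ring
    exact_mod_cast h2
  set W : ℕ → ℤ := fun t => -(((t : ℤ) ^ 2 * (a0 ^ 2 - (z : ℤ) * b0 ^ 2)) / k) with hWdef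
  -- the parameter `t`
  have hch : ∀ D ∈ T, ∃ t : ℕ, t ∈ M.divisors ∧ W t ≠ 0 ∧ |W t| ≤ H ∧ (X : ℤ) < |D| ∧
      |D| ≤ 2 * X ∧ ∃ x : ℤ, x ^ 2 = D * (W t) ^ 2 + 4 * ((z ^ (2 * d + 1) : ℕ) : ℤ) ∧
        ∀ h : ℕ, (h : ℤ) ^ 2 ∣ (W t) ^ 2 → (h : ℤ) ∣ 2 * x → h ≤ 4 := by
    intro D hD
    obtain ⟨w, x, P, hTow, hD1, hD2, hwH, hP⟩ := hT D hD
    obtain ⟨r, hr0, hr1⟩ := GNF_prop hg0 hA hB hco hP
    have hE := hTow.hE
    have hWW := hTow.hW
    rw [hr0, hr1] at hE hWW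
    have hE' : r ^ 2 * (P 3 * (a0 ^ 2 + (q₁ : ℤ) * q₂ * b0 ^ 2) - 2 * P 2 * a0 * b0)
        = 2 * ((q₁ : ℤ) * q₂) ^ d * k ^ 2 := by linear_combination hE
    have hMz : ((M : ℕ) : ℤ) = 2 * ((q₁ : ℤ) * q₂) ^ d * k ^ 2 := by
      rw [hM, hz]
      push_cast
      rw [sq_abs]
    have hrM : r ∣ (M : ℤ) := by
      rw [hMz, ← hE']
      exact Dvd.dvd.mul_right (dvd_pow_self r (by norm_num)) _
    have hwt : w = W r.natAbs := by
      have h1 : (r.natAbs : ℤ) ^ 2 = r ^ 2 := by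
        rw [Int.natCast_natAbs, sq_abs]
      have h2 : r ^ 2 * (a0 ^ 2 - (z : ℤ) * b0 ^ 2) = k * (-w) := by
        rw [hz]; push_cast; linear_combination hWW
      simp only [hWdef]
      rw [h1, h2, Int.mul_ediv_cancel_left _ hk0, neg_neg]
    refine ⟨r.natAbs, ?_, ?_, ?_, hD1, hD2, x, ?_, ?_⟩
    · rw [Nat.mem_divisors]
      refine ⟨?_, hM0.ne'⟩
      exact Int.natAbs_dvd_natAbs.mpr hrM
    · rw [← hwt]; exact hTow.w0
    · rw [← hwt]; exact hwH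
    · rw [← hwt, hz]; push_cast; exact hTow.sol
    · rw [← hwt]; exact hTow.prim
  choose! φ hφ using hch
  have hcard : T.card = ∑ t ∈ M.divisors, (T.filter fun D => φ D = t).card :=
    Finset.card_eq_sum_card_fiberwise (fun D hD => (hφ D hD).1)
  have key : ∀ t ∈ M.divisors, (((T.filter fun D => φ D = t).card : ℕ) : ℝ)
      ≤ C0 * C1 * (H : ℝ) ^ (2 * e) := by
    intro t ht
    by_cases hne : (T.filter fun D => φ D = t) = ∅
    · rw [hne, Finset.card_empty]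
      have : (0 : ℝ) ≤ C0 * C1 * (H : ℝ) ^ (2 * e) := by positivity
      simpa using this
    obtain ⟨D1, hD1⟩ := Finset.nonempty_iff_ne_empty.mpr hne
    rw [Finset.mem_filter] at hD1
    have hf := hφ D1 hD1.1
    rw [hD1.2] at hf
    obtain ⟨-, hWne, hWH, -⟩ := hf
    have h1 := hW X (z ^ (2 * d + 1)) (W t) (by omega) (by positivity) hXz hWne
      (T.filter fun D => φ D = t) (by
        intro D hD
        rw [Finset.mem_filter] at hD
        have hf2 := hφ D hD.1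
        rw [hD.2] at hf2
        exact hf2.2.2.2)
    have hn0 : 0 < (W t).natAbs ^ 2 := by
      have : 0 < (W t).natAbs := Int.natAbs_pos.mpr hWne
      positivity
    have h2 := hdiv _ hn0
    have h3 : (((W t).natAbs ^ 2 : ℕ) : ℝ) ≤ (H : ℝ) ^ (2 : ℝ) := by
      have h4 : (W t).natAbs ≤ H := by
        have : (((W t).natAbs : ℕ) : ℤ) ≤ (H : ℤ) := by
          rw [Int.natCast_natAbs]; exact hWH
        exact_mod_cast this
      have h5 : (((W t).natAbs ^ 2 : ℕ) : ℝ) ≤ ((H ^ 2 : ℕ) : ℝ) := by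
        exact_mod_cast Nat.pow_le_pow_left h4 2
      rw [Real.rpow_two]
      push_cast at h5 ⊢
      exact h5
    have h6 : (((W t).natAbs ^ 2 : ℕ) : ℝ) ^ e ≤ (H : ℝ) ^ (2 * e) := by
      rw [Real.rpow_mul hH0.le]
      exact Real.rpow_le_rpow (by positivity) h3 hepos.le
    calc (((T.filter fun D => φ D = t).card : ℕ) : ℝ)
        ≤ C0 * ((((W t).natAbs ^ 2).divisors.card : ℕ) : ℝ) := h1
      _ ≤ C0 * (C1 * (((W t).natAbs ^ 2 : ℕ) : ℝ) ^ e) := by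
          apply mul_le_mul_of_nonneg_left h2; linarith
      _ ≤ C0 * (C1 * (H : ℝ) ^ (2 * e)) := by
          apply mul_le_mul_of_nonneg_left _ (by linarith)
          exact mul_le_mul_of_nonneg_left h6 (by linarith)
      _ = C0 * C1 * (H : ℝ) ^ (2 * e) := by ring
  have hMdiv : ((M.divisors.card : ℕ) : ℝ) ≤ C1 * (50 : ℝ) ^ e * (H : ℝ) ^ (((d : ℝ) + 1) * e) := by
    have h1 := hdiv M hM0
    have h2 : (M : ℝ) ^ e ≤ (50 * (H : ℝ) ^ (d + 1)) ^ e :=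
      Real.rpow_le_rpow (by positivity) hMH hepos.le
    have h3 : (50 * (H : ℝ) ^ (d + 1)) ^ e = (50 : ℝ) ^ e * (H : ℝ) ^ (((d : ℝ) + 1) * e) := by
      rw [Real.mul_rpow (by norm_num) (by positivity)]
      congr 1
      rw [← Real.rpow_natCast, ← Real.rpow_mul hH0.le]
      push_cast
      rfl
    calc ((M.divisors.card : ℕ) : ℝ) ≤ C1 * (M : ℝ) ^ e := h1
      _ ≤ C1 * (50 * (H : ℝ) ^ (d + 1)) ^ e := by
          apply mul_le_mul_of_nonneg_left h2; linarith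
      _ = C1 * (50 : ℝ) ^ e * (H : ℝ) ^ (((d : ℝ) + 1) * e) := by rw [h3]; ring
  have hexp : (H : ℝ) ^ (((d : ℝ) + 1) * e) * (H : ℝ) ^ (2 * e) = (H : ℝ) ^ ε := by
    rw [← Real.rpow_add hH0]
    congr 1
    rw [he]
    field_simp
    ring
  calc (T.card : ℝ) = ∑ t ∈ M.divisors, (((T.filter fun D => φ D = t).card : ℕ) : ℝ) := by
        rw [hcard]; push_cast; rfl
    _ ≤ ∑ _t ∈ M.divisors, C0 * C1 * (H : ℝ) ^ (2 * e) := Finset.sum_le_sum key
    _ = ((M.divisors.card : ℕ) : ℝ) * (C0 * C1 * (H : ℝ) ^ (2 * e)) := by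
        rw [Finset.sum_const, nsmul_eq_mul]
    _ ≤ (C1 * (50 : ℝ) ^ e * (H : ℝ) ^ (((d : ℝ) + 1) * e)) * (C0 * C1 * (H : ℝ) ^ (2 * e)) := by
        apply mul_le_mul_of_nonneg_right hMdiv; positivity
    _ = C1 * (50 : ℝ) ^ e * (C0 * C1) * ((H : ℝ) ^ (((d : ℝ) + 1) * e) * (H : ℝ) ^ (2 * e)) := by
        ring
    _ = C1 * (50 : ℝ) ^ e * (C0 * C1) * (H : ℝ) ^ ε := by rw [hexp]

end Pool.Agent.helper27.TD
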